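import Pool.Agent.Y506.FF.Stm

/-!
# Splitting off one direction
-/

set_option autoImplicit false

namespace Pool.Agent.Y655.FF

open MeasureTheory Set Filter Topology
open scoped ENNReal InnerProductSpace
open Pool.Agent.W695.KH (Eu)
open Pool.Agent.Y506.FF (Pair S_SPL)

/-- a coordinate in front -/
def cn {n : ℕ} (u : ℝ) (x : Eu (Fin n)) : Eu (Fin (n + 1)) :=
  WithLp.toLp 2 (Fin.cons u x.ofLp : Fin (n + 1) → ℝ)

/-- the other coordinates -/
def tl {n : ℕ} (z : Eu (Fin (n + 1))) : Eu (Fin n) := WithLp.toLp 2 fun i => z i.succ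

theorem cn_zero {n : ℕ} (u : ℝ) (x : Eu (Fin n)) : cn u x 0 = u := rfl

theorem cn_succ {n : ℕ} (u : ℝ) (x : Eu (Fin n)) (i : Fin n) : cn u x i.succ = x i := rfl

theorem inner_cn {n : ℕ} (u v : ℝ) (x y : Eu (Fin n)) :
    ⟪cn u x, cn v y⟫_ℝ = u * v + ⟪x, y⟫_ℝ := by
  rw [PiLp.inner_apply, PiLp.inner_apply, Fin.sum_univ_succ]
  simp only [cn_zero, cn_succ]
  congr 1
  simp [mul_comm]

theorem cn_tl {n : ℕ} (z : Eu (Fin (n + 1))) : cn (z 0) (tl z) = z := by
  ext i
  refine Fin.cases ?_ (fun i => ?_) i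
  · rfl
  · rfl

theorem cn_add {n : ℕ} (u v : ℝ) (x y : Eu (Fin n)) : cn (u + v) (x + y) = cn u x + cn v y := by
  ext i
  refine Fin.cases ?_ (fun i => ?_) i
  · rfl
  · rfl

theorem cn_smul {n : ℕ} (c u : ℝ) (x : Eu (Fin n)) : cn (c * u) (c • x) = c • cn u x := by
  ext i
  refine Fin.cases ?_ (fun i => ?_) i
  · rfl
  · rfl

/-- the inclusion of a hyperplane -/
def J (n : ℕ) : Eu (Fin n) →ₗᵢ[ℝ] Eu (Fin (n + 1)) where
  toFun x := cn 0 x
  map_add' x y := by
    have := cn_add 0 0 x y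
    rwa [add_zero] at this
  map_smul' c x := by
    have := cn_smul c 0 x
    rwa [mul_zero] at this
  norm_map' x := by
    show ‖cn 0 x‖ = ‖x‖
    rw [norm_eq_sqrt_real_inner, norm_eq_sqrt_real_inner, inner_cn, mul_zero, zero_add]

theorem J_apply {n : ℕ} (x : Eu (Fin n)) : J n x = cn 0 x := rfl

/-- an additional direction -/
noncomputable def ex {ι : Type} [Fintype ι] {d : ℕ} (M : Eu (Fin d) →ₗᵢ[ℝ] Eu ι) (w : Eu ι) (hw : ‖w‖ = 1)
    (hM : ∀ z, ⟪w, M z⟫_ℝ = 0) : Eu (Fin (d + 1)) →ₗᵢ[ℝ] Eu ι where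
  toFun z := z 0 • w + M (tl z)
  map_add' x y := by
    have e : tl (x + y) = tl x + tl y := rfl
    rw [e, map_add, PiLp.add_apply, add_smul]
    abel
  map_smul' c x := by
    have e : tl (c • x) = c • tl x := rfl
    rw [e, map_smul, PiLp.smul_apply, smul_add, smul_smul, RingHom.id_apply, smul_eq_mul]
  norm_map' z := by
    show ‖z 0 • w + M (tl z)‖ = ‖z‖
    conv_rhs => rw [← cn_tl z]
    rw [norm_eq_sqrt_real_inner, norm_eq_sqrt_real_inner, inner_cn]
    congr 1
    rw [inner_add_left, inner_add_right, inner_add_right, real_inner_smul_left,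
      real_inner_smul_left, real_inner_smul_right, hM, real_inner_smul_right,
      real_inner_comm (M (tl z)) w |>.symm.trans (hM (tl z)),
      M.inner_map_map, real_inner_self_eq_norm_sq w, hw]
    ring

theorem ex_apply {ι : Type} [Fintype ι] {d : ℕ} (M : Eu (Fin d) →ₗᵢ[ℝ] Eu ι) (w : Eu ι)
    (hw : ‖w‖ = 1) (hM : ∀ z, ⟪w, M z⟫_ℝ = 0) (z : Eu (Fin (d + 1))) :
    ex M w hw hM z = z 0 • w + M (tl z) := rfl

theorem measurable_cn {n : ℕ} : Measurable fun p : ℝ × Eu (Fin n) => cn p.1 p.2 := by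
  apply Continuous.measurable
  refine (PiLp.continuous_toLp 2 _).comp ?_
  refine continuous_pi fun i => ?_
  refine Fin.cases ?_ (fun i => ?_) i
  · exact continuous_fst
  · show Continuous fun p : ℝ × Eu (Fin n) => p.2 i
    fun_prop

/-- Tonelli -/
theorem lintegral_cn {n : ℕ} {f : Eu (Fin (n + 1)) → ℝ≥0∞} (hf : Measurable f) :
    ∫⁻ y, f y = ∫⁻ u : ℝ, ∫⁻ x : Eu (Fin n), f (cn u x) := by
  have hem : MeasurePreserving (MeasurableEquiv.piFinSuccAbove (fun _ : Fin (n + 1) => ℝ) 0).symm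
      (volume : Measure (ℝ × (Fin n → ℝ))) (volume : Measure (Fin (n + 1) → ℝ)) :=
    (volume_preserving_piFinSuccAbove (fun _ : Fin (n + 1) => ℝ) 0).symm _
  have hto : Measurable fun w : Fin (n + 1) → ℝ => f (WithLp.toLp 2 w) :=
    hf.comp (PiLp.volume_preserving_toLp (Fin (n + 1))).measurable
  rw [← (PiLp.volume_preserving_toLp (Fin (n + 1))).lintegral_comp hf, ← hem.lintegral_comp hto,
    Measure.volume_eq_prod]
  have h0 : Measurable fun p : ℝ × (Fin n → ℝ) => f (WithLp.toLp 2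
      ((MeasurableEquiv.piFinSuccAbove (fun _ : Fin (n + 1) => ℝ) 0).symm p)) :=
    hto.comp hem.measurable
  rw [lintegral_prod _ h0.aemeasurable]
  refine lintegral_congr fun u => ?_
  have h1 : Measurable fun x : Fin n → ℝ => f (WithLp.toLp 2
      ((MeasurableEquiv.piFinSuccAbove (fun _ : Fin (n + 1) => ℝ) 0).symm (u, x))) :=
    (hto.comp hem.measurable).comp measurable_prodMk_left
  rw [← (PiLp.volume_preserving_ofLp (Fin n)).lintegral_comp h1]
  refine lintegral_congr fun x => ?_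
  congr 2
  simp only [MeasurableEquiv.piFinSuccAbove, MeasurableEquiv.symm_mk, MeasurableEquiv.coe_mk]
  ext i
  refine Fin.cases ?_ (fun i => ?_) i
  · simp
  · simp

/-- **splitting off one direction** -/
theorem spl : S_SPL := by
  intro ι _ n d L M hP θ hθ
  obtain ⟨b, hb⟩ := Orthonormal.exists_orthonormalBasis_extension_of_card_eq
    (𝕜 := ℝ) (E := Eu (Fin (n + 1))) (ι := Fin (n + 1)) (by simp) (v := fun _ => θ)
    (s := {0}) (by
      refine ⟨fun i => hθ, fun i j hij => ?_⟩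
      exfalso
      apply hij
      have h1 := i.2
      have h2 := j.2
      rw [Set.mem_singleton_iff] at h1 h2
      exact Subtype.ext (h1.trans h2.symm))
  have hb0 : b 0 = θ := hb 0 rfl
  set R : Eu (Fin (n + 1)) ≃ₗᵢ[ℝ] Eu (Fin (n + 1)) := b.repr.symm with hR
  have hR0 : R (EuclideanSpace.single 0 1) = θ := by
    rw [hR, OrthonormalBasis.repr_symm_single, hb0]
  have hs : (EuclideanSpace.single 0 1 : Eu (Fin (n + 1))) = cn 1 0 := by
    ext i
    refine Fin.cases ?_ (fun i => ?_) i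
    · simp [cn_zero]
    · simp [cn_succ]
  rw [hs] at hR0
  have hw : ‖L θ‖ = 1 := by rw [L.norm_map, hθ]
  have hM : ∀ z, ⟪L θ, M z⟫_ℝ = 0 := fun z => hP.orth θ z
  refine ⟨L.comp (R.toLinearIsometry.comp (J n)), ex M (L θ) hw hM, EuclideanSpace.single 0 1,
    ⟨?_, ?_⟩, by simp, ?_⟩
  · intro x z
    rw [ex_apply, inner_add_right, real_inner_smul_right]
    have e1 : ⟪(L.comp (R.toLinearIsometry.comp (J n))) x, L θ⟫_ℝ = 0 := by
      show ⟪L (R (cn 0 x)), L θ⟫_ℝ = 0
      rw [L.inner_map_map, ← hR0, R.inner_map_map, inner_cn]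
      simp
    rw [e1]
    have e2 : ⟪(L.comp (R.toLinearIsometry.comp (J n))) x, M (tl z)⟫_ℝ = 0 := hP.orth _ _
    rw [e2]
    ring
  · have := hP.card
    omega
  · intro φ G hφ hG
    have hLm : Measurable fun x : Eu (Fin (n + 1)) => G (L x) := hG.comp L.continuous.measurable
    have hin : Measurable fun x : Eu (Fin (n + 1)) => φ ⟪θ, x⟫_ℝ :=
      hφ.comp (continuous_const.inner continuous_id).measurable
    have hmul : Measurable fun x : Eu (Fin (n + 1)) => φ ⟪θ, x⟫_ℝ * G (L x) := hin.mul hLm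
    rw [← R.measurePreserving.lintegral_comp hmul]
    have hm : Measurable fun y : Eu (Fin (n + 1)) => φ ⟪θ, R y⟫_ℝ * G (L (R y)) :=
      hmul.comp R.continuous.measurable
    rw [lintegral_cn hm]
    refine lintegral_congr fun u => ?_
    have e1 : ∀ x : Eu (Fin n), ⟪θ, R (cn u x)⟫_ℝ = u := by
      intro x
      rw [← hR0, R.inner_map_map, inner_cn]
      simp
    have e2 : ∀ x : Eu (Fin n), L (R (cn u x)) =
        (L.comp (R.toLinearIsometry.comp (J n))) x +
          ex M (L θ) hw hM (u • EuclideanSpace.single 0 1) := by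
      intro x
      have e3 : cn u x = cn 0 x + u • cn 1 0 := by
        rw [← cn_smul, ← cn_add]
        simp
      have e4 : tl (u • (EuclideanSpace.single 0 1 : Eu (Fin (d + 1)))) = 0 := by
        ext i
        simp [tl]
      rw [ex_apply, e4, map_zero, add_zero, e3, map_add, map_smul, hR0, map_add, map_smul]
      have e5 : (u • (EuclideanSpace.single 0 1 : Eu (Fin (d + 1)))) 0 = u := by simp
      rw [e5]
      rfl
    have hm2 : Measurable fun x : Eu (Fin n) => G ((L.comp (R.toLinearIsometry.comp (J n))) x +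
        ex M (L θ) hw hM (u • EuclideanSpace.single 0 1)) :=
      hG.comp ((LinearIsometry.continuous _).measurable.add_const _)
    rw [← lintegral_const_mul _ hm2]
    refine lintegral_congr fun x => ?_
    rw [e1, e2]

end Pool.Agent.Y655.FF
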